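import Pool.Agent.Q112.LE.Main
import Pool.Agent.Q120.GM.Exists

/-!
# The least elements of fixed residue classes in the sieved models of the primes

`Q` is the level: the random set `A` contains each `n` coprime to `Q` independently with
probability `min(1, (Q/φ(Q))/log n)`, and no other `n`. For `Q = 1` this is the model of Cramér.
`phi Q m = m φ(g)/g` with `g = (m, Q)`, that is `m ∏_{p ∣ (m, Q)} (1 - 1/p)`.
`Beyond S c m y`: every element of `S` which is congruent to `c` modulo `m`, except `c` itself, is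
larger than `y`; so if `c` is not in `S`, the least element of `S` in the class is larger than `y`.
-/

set_option autoImplicit false

namespace Pool.Agent.Results.MP_e1dc24_nt.ExponentialLaw

open MeasureTheory Filter Pool.Agent.Q120.GM
open scoped Topology

/-- `φ_Q(m) = m ∏_{p ∣ (m, Q)} (1 - 1/p) = m φ(g)/g` with `g = (m, Q)`. -/
noncomputable def phi (Q m : ℕ) : ℝ := (m : ℝ) * ((Nat.totient (Nat.gcd m Q) : ℝ) / (Nat.gcd m Q : ℕ))

/-- All elements of `S` which are congruent to `c` modulo `m`, except `c` itself, are larger than `y`. -/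
def Beyond (S : Set ℕ) (c : ℤ) (m : ℕ) (y : ℝ) : Prop :=
  ∀ n ∈ S, (n : ℤ) ≡ c [ZMOD m] → (n : ℤ) ≠ c → y < n

/-- For all `c ∈ C`: the elements of `S` in the class of `c` modulo `m` exceed `u(c) φ_Q(m) log m`. -/
def Far (S : Set ℕ) (Q : ℕ) (C : Finset ℤ) (u : ℤ → ℝ) (m : ℕ) : Prop :=
  ∀ c ∈ C, Beyond S c m (u c * phi Q m * Real.log m)

/-- **The exponential law.** The models exist, and in every model: (1) for every sequence of different moduli
`d 0, d 1, ...` almost surely, for all finite sets `C` of integers which are coprime to all numbers `(d i, Q)`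
and all thresholds `u ≥ 0`, the proportion of the `i < N` such that for every `c ∈ C` the elements of `A` in
the class of `c` modulo `d i`, except `c` itself, exceed `u(c) φ_Q(d i) log (d i)`, tends to
`∏_{c ∈ C} exp (-u(c))`; (2) almost surely, for all finite sets `C` of integers different from `0` and
all `u ≥ 0`, the proportion, among all the moduli `m ≤ x` which are coprime to all the elements of `C`, of
those with this property tends to `∏_{c ∈ C} exp (-u(c))`. -/
theorem result : (∀ Q : ℕ, IsModel (prodMeasure (level Q)) (level Q) (trueSet (ι := ℕ))) ∧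
    ∀ (Ω : Type) (_ : MeasurableSpace Ω) (μ : Measure Ω) (_ : IsProbabilityMeasure μ) (A : Ω → Set ℕ) (Q : ℕ),
      1 ≤ Q → IsModel μ (level Q) A →
      (∀ d : ℕ → ℕ, Function.Injective d →
        ∀ᵐ ω ∂μ, ∀ C : Finset ℤ, (∀ i, ∀ c ∈ C, Int.gcd c (Nat.gcd (d i) Q) = 1) →
          ∀ u : ℤ → ℝ, (∀ c ∈ C, 0 ≤ u c) →
            Tendsto (fun N : ℕ => (Set.ncard {i | i < N ∧ Far (A ω) Q C u (d i)} : ℝ) / N) atTop
              (𝓝 (Real.exp (-∑ c ∈ C, u c)))) ∧
      (∀ᵐ ω ∂μ, ∀ C : Finset ℤ, (∀ c ∈ C, c ≠ 0) → ∀ u : ℤ → ℝ, (∀ c ∈ C, 0 ≤ u c) →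
        Tendsto (fun x : ℕ => (Set.ncard {m : ℕ | m ≤ x ∧ (∀ c ∈ C, Int.gcd c m = 1) ∧ Far (A ω) Q C u m} : ℝ) /
          Set.ncard {m : ℕ | m ≤ x ∧ ∀ c ∈ C, Int.gcd c m = 1}) atTop (𝓝 (Real.exp (-∑ c ∈ C, u c)))) := by
  refine ⟨fun Q => isModel (level Q) (level_nonneg Q) (level_le_one Q), ?_⟩
  intro Ω _ μ _ A Q hQ hA
  refine ⟨fun d hd => ?_, ?_⟩
  · filter_upwards [Pool.Agent.Q112.LE.law_seq hA hQ hd] with ω hω C hC u hu
    exact (hω C hC u hu).tendsto
  · exact Pool.Agent.Q112.LE.law_all hA hQ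

end Pool.Agent.Results.MP_e1dc24_nt.ExponentialLaw
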