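import Pool.Agent.Q112.LE.Fix
import Pool.Agent.Q120.GM.Exists

/-!
# The extreme values of the least elements of residue classes in the sieved models of the primes

`Q` is the level: the random set `A` contains each `n` coprime to `Q` independently with
probability `min(1, (Q/φ(Q))/log n)`, and no other `n`. For `Q = 1` this is the model of Cramér.
`phi Q m = m ∏_{p ∣ (m, Q)} (1 - 1/p)`. For a family of about `m ^ θ` residue classes modulo `m`, one family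
for every `m`, let `R(m)` be the maximum of `p(c, m) / (φ_Q(m) (log m)^2)` over the family, where `p(c, m)` is
the least element of `A` in the class. Almost surely the lower limit of `R` is at least `θ`, the upper limit is `1 + θ`,
and for `θ < t < 1 + θ` the number of the `m ≤ x` with `R(m) > t` is `x ^ (1 + θ - t + o(1))`; the prime
moduli alone give the lower bound.
-/

set_option autoImplicit false

namespace Pool.Agent.Results.MP_e1dc24_nt.ExtremeValues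

open MeasureTheory Filter Pool.Agent.Q120.GM
open scoped Topology

/-- `φ_Q(m) = m ∏_{p ∣ (m, Q)} (1 - 1/p) = m φ(g)/g` with `g = (m, Q)`. -/
noncomputable def phi (Q m : ℕ) : ℝ := (m : ℝ) * ((Nat.totient (Nat.gcd m Q) : ℝ) / (Nat.gcd m Q : ℕ))

/-- All elements of `S` in the class of `c` modulo `m` are larger than `y`. -/
def Late (S : Set ℕ) (c m : ℕ) (y : ℝ) : Prop := ∀ n ∈ S, n % m = c % m → y < n

/-- Some class of the family `C m` modulo `m` has no element of `S` up to `t φ_Q(m) (log m)^2`. -/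
def Exceeds (S : Set ℕ) (Q : ℕ) (C : ℕ → Finset ℕ) (t : ℝ) (m : ℕ) : Prop :=
  ∃ c ∈ C m, Late S c m (t * phi Q m * Real.log m ^ 2)

/-- For every `m` a set of residues `c < m` coprime to `(m, Q)`, about `m ^ θ` of them. -/
structure Family (Q : ℕ) (θ : ℝ) (C : ℕ → Finset ℕ) : Prop where
  lt : ∀ m, ∀ c ∈ C m, c < m
  cop : ∀ m, ∀ c ∈ C m, Nat.gcd c (Nat.gcd m Q) = 1
  card_ge : ∀ δ : ℝ, 0 < δ → ∀ᶠ m : ℕ in atTop, (m : ℝ) ^ (θ - δ) ≤ (C m).card
  card_le : ∀ δ : ℝ, 0 < δ → ∀ᶠ m : ℕ in atTop, ((C m).card : ℝ) ≤ (m : ℝ) ^ (θ + δ)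

/-- The law of the extreme values. -/
structure ExtremeLaw (S : Set ℕ) (Q : ℕ) (C : ℕ → Finset ℕ) (θ : ℝ) : Prop where
  upper : ∀ t : ℝ, 1 + θ < t → ∀ᶠ m : ℕ in atTop, ¬ Exceeds S Q C t m
  lower : ∀ t : ℝ, t < θ → ∀ᶠ m : ℕ in atTop, Exceeds S Q C t m
  few : ∀ t : ℝ, θ < t → t < 1 + θ → ∀ δ : ℝ, 0 < δ → ∀ᶠ x : ℕ in atTop,
    (Set.ncard {m : ℕ | m ≤ x ∧ Exceeds S Q C t m} : ℝ) ≤ (x : ℝ) ^ (1 + θ - t + δ)
  many : ∀ t : ℝ, θ < t → t < 1 + θ → ∀ δ : ℝ, 0 < δ → ∀ᶠ x : ℕ in atTop,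
    (x : ℝ) ^ (1 + θ - t - δ) ≤ (Set.ncard {m : ℕ | m ≤ x ∧ m.Prime ∧ Exceeds S Q C t m} : ℝ)

open Classical in
/-- The integers `1 ≤ c ≤ m ^ θ`, `c < m`, coprime to `m`. -/
noncomputable def residues (θ : ℝ) (m : ℕ) : Finset ℕ :=
  (Finset.range m).filter (fun c => 1 ≤ c ∧ (c : ℝ) ≤ (m : ℝ) ^ θ ∧ c.Coprime m)

/-- The class of `c` modulo `m` has positive density in the model, and its elements, except `c` itself, exceed
`t φ_Q(m) (log m)^2`. -/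
def FarOut (S : Set ℕ) (Q : ℕ) (c : ℤ) (t : ℝ) (m : ℕ) : Prop :=
  Int.gcd c (Nat.gcd m Q) = 1 ∧
    ∀ n ∈ S, (n : ℤ) ≡ c [ZMOD m] → (n : ℤ) ≠ c → t * phi Q m * Real.log m ^ 2 < n

/-- The law of the extreme values for a fixed residue. -/
structure FixedLaw (S : Set ℕ) (Q : ℕ) (c : ℤ) : Prop where
  upper : ∀ t : ℝ, 1 < t → ∀ᶠ m : ℕ in atTop, ¬ FarOut S Q c t m
  few : ∀ t : ℝ, 0 < t → t < 1 → ∀ δ : ℝ, 0 < δ → ∀ᶠ x : ℕ in atTop,
    (Set.ncard {m : ℕ | m ≤ x ∧ FarOut S Q c t m} : ℝ) ≤ (x : ℝ) ^ (1 - t + δ)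
  many : ∀ t : ℝ, 0 < t → t < 1 → ∀ δ : ℝ, 0 < δ → ∀ᶠ x : ℕ in atTop,
    (x : ℝ) ^ (1 - t - δ) ≤ (Set.ncard {m : ℕ | m ≤ x ∧ m.Prime ∧ FarOut S Q c t m} : ℝ)

/-- **The extreme values.** The models exist, and in every model: (1) for every family of about `m ^ θ` residue
classes modulo `m`, `θ > 0`, almost surely the law of the extreme values holds for this family; (2) almost surely the
law holds for the residues `c ≤ m ^ θ` coprime to `m`, for all `0 < θ ≤ 1` at the same time; (3) almost surely for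
every fixed integer `c` the law holds with `θ = 0`. -/
theorem result : (∀ Q : ℕ, IsModel (prodMeasure (level Q)) (level Q) (trueSet (ι := ℕ))) ∧
    ∀ (Ω : Type) (_ : MeasurableSpace Ω) (μ : Measure Ω) (_ : IsProbabilityMeasure μ) (A : Ω → Set ℕ) (Q : ℕ),
      1 ≤ Q → IsModel μ (level Q) A →
      (∀ (θ : ℝ) (C : ℕ → Finset ℕ), 0 < θ → Family Q θ C → ∀ᵐ ω ∂μ, ExtremeLaw (A ω) Q C θ) ∧
      (∀ᵐ ω ∂μ, ∀ θ : ℝ, 0 < θ → θ ≤ 1 → ExtremeLaw (A ω) Q (residues θ) θ) ∧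
      (∀ᵐ ω ∂μ, ∀ c : ℤ, FixedLaw (A ω) Q c) := by
  refine ⟨fun Q => isModel (level Q) (level_nonneg Q) (level_le_one Q), ?_⟩
  intro Ω _ μ _ A Q hQ hA
  have key : ∀ (S : Set ℕ) (C : ℕ → Finset ℕ) (θ : ℝ), Pool.Agent.Q112.LE.ExtLaw S Q C θ → ExtremeLaw S Q C θ :=
    fun S C θ h => ⟨h.upper, h.lower, h.few, h.many⟩
  refine ⟨fun θ C hθ hC => ?_, ?_, ?_⟩
  · filter_upwards [Pool.Agent.Q112.LE.ext_law hA hQ (𝓒 := C) ⟨hC.lt, hC.cop, hC.card_ge, hC.card_le⟩ hθ] with ω hω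
    exact key _ _ _ hω
  · filter_upwards [Pool.Agent.Q112.LE.res_law hA hQ] with ω hω θ hθ hθ1
    exact key _ _ _ (hω θ hθ hθ1)
  · filter_upwards [Pool.Agent.Q112.LE.fix_law hA hQ] with ω hω c
    exact ⟨(hω c).upper, (hω c).few, (hω c).many⟩

end Pool.Agent.Results.MP_e1dc24_nt.ExtremeValues
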