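import Pool.Agent.Q145.MT.RatRes
import Pool.Agent.Q145.MT.Gold

set_option autoImplicit false

/-!
# Prime moduli for which the classes of all rational numbers of small height have large least primes

Let `f(X) = log X (log₂ X)² log₄ X / (log₃ X)²` (the order of the largest known gaps between primes). For every `J` there
is `c > 0` such that for more than `X ^ (9 / 10)` prime moduli `p` in `(X, 3 X]` the least primes in the residue classes
modulo `p` of ALL rational numbers `a / j ≠ 0` of height at most `J` exceed `c X f(X)` at the same time (`a / j` itself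
excepted, if it is a prime). The multipliers `k` of `j q = k p + a` can be taken from arbitrary sets.

Method: if `n ≡ - (a / c) (mod q)` then `q` divides `k n + a` for the `k ≡ c (mod q)`, so that the covering of arbitrary
sets by residue classes which avoid `0` (`Pool.Agent.TH101.RG.oneZ` of the starting library, used there for
translates) applies to the multipliers of a prime; the rational numbers `k / a` are treated together after
multiplication by `J!`.
-/

namespace Pool.Agent.Results.MP_e1dc24_nt.RationalClassesPrimeModuli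

open Finset Filter

/-- the order of the largest known gaps between primes -/
noncomputable def f (x : ℝ) : ℝ :=
  Real.log x * Real.log (Real.log x) ^ 2 * Real.log (Real.log (Real.log (Real.log x))) /
    Real.log (Real.log (Real.log x)) ^ 2

/-- `|k| / φ(|k|)` -/
noncomputable def w (k : ℤ) : ℝ := (k.natAbs : ℝ) / k.natAbs.totient

/-- More than `X ^ (9 / 10)` primes `p` in `(X, 3 X]` have the property. -/
def ManyPrimes (X : ℝ) (P : ℕ → Prop) : Prop :=
  X ^ (9 / 10 : ℝ) < ({p : ℕ | p.Prime ∧ X < p ∧ (p : ℝ) ≤ 3 * X ∧ P p}.ncard : ℝ)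

/-- The nonzero integers of absolute value at most `J`. -/
def Small (J : ℕ) (a : ℤ) : Prop := a ≠ 0 ∧ |a| ≤ J

lemma many_of (X : ℝ) (hX : 0 ≤ X) (P : ℕ → Prop)
    (h : ∀ bad : Finset ℕ, (bad.card : ℝ) ≤ X ^ (9 / 10 : ℝ) →
      ∃ p : ℕ, p.Prime ∧ X < p ∧ (p : ℝ) ≤ 3 * X ∧ p ∉ bad ∧ P p) : ManyPrimes X P := by
  unfold ManyPrimes
  by_contra hcon
  push Not at hcon
  have hfin : {p : ℕ | p.Prime ∧ X < p ∧ (p : ℝ) ≤ 3 * X ∧ P p}.Finite := by
    apply (Set.finite_Iic ⌊3 * X⌋₊).subset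
    intro p hp
    exact Nat.le_floor hp.2.2.1
  obtain ⟨p, h1, h2, h3, h4, h5⟩ := h hfin.toFinset (by rw [← Set.ncard_eq_toFinset_card _ hfin]; exact hcon)
  apply h4
  rw [Set.Finite.mem_toFinset]
  exact ⟨h1, h2, h3, h5⟩

lemma f_bds {x : ℝ} (h1 : 1 ≤ Real.log x) (h2 : 1 ≤ Real.log (Real.log x))
    (h3 : 1 ≤ Real.log (Real.log (Real.log x))) (h4 : 1 ≤ Real.log (Real.log (Real.log (Real.log x)))) :
    Real.log x / 4 ≤ f x ∧ f x ≤ Real.log x * (Real.log (Real.log x)) ^ 3 := by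
  obtain ⟨g1, g2⟩ := Q145.MT.FF_bounds h1 h2 h3 h4
  have hF : Q145.MT.FF x = f x * Real.log (Real.log x) := rfl
  rw [hF] at g1 g2
  set l1 := Real.log x with hl1
  set l2 := Real.log l1 with hl2
  have p2 : 0 < l2 := by linarith
  constructor
  · by_contra hcon
    push Not at hcon
    have : f x * l2 < l1 / 4 * l2 := mul_lt_mul_of_pos_right hcon p2
    have h5 : l1 / 4 * l2 ≤ l1 * l2 ^ 2 / 4 := by
      have : l1 * l2 * 1 ≤ l1 * l2 * l2 := mul_le_mul_of_nonneg_left h2 (by positivity)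
      nlinarith
    linarith
  · by_contra hcon
    push Not at hcon
    have : l1 * l2 ^ 3 * l2 < f x * l2 := mul_lt_mul_of_pos_right hcon p2
    have h5 : l1 * l2 ^ 3 * l2 = l1 * l2 ^ 4 := by ring
    linarith

/-- Let `J ≥ 1`.
1. There is `c > 0` such that for all large `X` more than `X ^ (9 / 10)` primes `p` in `(X, 3 X]` have the property: if
   a prime `q` satisfies `j q ≡ a (mod p)`, i.e. `q ≡ a / j`, for some integers `1 ≤ |a|, |j| ≤ J`, then `q > c X f(X)`
   or `j q = a`.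
2. For every `A` there is `c > 0` such that for all large `X` and EVERY finite set `K` of integers
   `0 < |k| ≤ log X (log log X) ^ A` with `∑ |k| / φ(|k|) ≤ c f(X)` more than `X ^ (9 / 10)` primes `p` in `(X, 3 X]`
   have the property: no number `k p + a`, `k ∈ K`, `1 ≤ |a| ≤ J`, is of the form `j q` with `|j| ≤ J` and `q` prime. -/
theorem result (J : ℕ) (hJ : 1 ≤ J) :
    (∃ c : ℝ, 0 < c ∧ ∀ᶠ X : ℝ in atTop, ManyPrimes X (fun p => ∀ a j : ℤ, Small J a → Small J j →
      ∀ q : ℕ, q.Prime → (p : ℤ) ∣ j * q - a → j * q ≠ a → c * X * f X < q)) ∧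
    ∀ A : ℕ, ∃ c : ℝ, 0 < c ∧ ∀ᶠ X : ℝ in atTop, ∀ K : Finset ℤ,
      (∀ k ∈ K, k ≠ 0 ∧ |(k : ℝ)| ≤ Real.log X * (Real.log (Real.log X)) ^ A) → ∑ k ∈ K, w k ≤ c * f X →
      ManyPrimes X (fun p => ∀ k ∈ K, ∀ a j : ℤ, Small J a → Small J j → ∀ q : ℕ, q.Prime → j * q ≠ k * p + a) := by
  have part2 : ∀ A : ℕ, ∃ c : ℝ, 0 < c ∧ ∀ᶠ X : ℝ in atTop, ∀ K : Finset ℤ,
      (∀ k ∈ K, k ≠ 0 ∧ |(k : ℝ)| ≤ Real.log X * (Real.log (Real.log X)) ^ A) → ∑ k ∈ K, w k ≤ c * f X →
      ManyPrimes X (fun p => ∀ k ∈ K, ∀ a j : ℤ, Small J a → Small J j → ∀ q : ℕ, q.Prime → j * q ≠ k * p + a) := by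
    intro A
    obtain ⟨c, hc, h⟩ := Q145.MT.ratRes A J hJ
    refine ⟨c, hc, ?_⟩
    filter_upwards [h, eventually_ge_atTop 0] with X hX hX0
    intro K hK hKw
    apply many_of X hX0
    intro bad hbad
    obtain ⟨p, h1, h2, h3, h4, h5⟩ := hX K hK hKw bad hbad
    exact ⟨p, h1, h2, h3, h4, fun k hk a j ha hj q hq => h5 k hk a j ha.1 ha.2 hj.1 hj.2 q hq⟩
  refine ⟨?_, part2⟩
  obtain ⟨c, hc, h⟩ := part2 3
  obtain ⟨C, hC, hmom⟩ := Q145.MT.mom1 1
  set c₁ : ℝ := min 1 (c / (2 * C)) with hc₁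
  have hc₁0 : 0 < c₁ := by positivity
  have hJr : (1 : ℝ) ≤ J := by exact_mod_cast hJ
  refine ⟨c₁ / (4 * J), by positivity, ?_⟩
  filter_upwards [h, Q145.MT.ev 1, Q145.MT.ev (4 * (J : ℝ) + 4), Q145.MT.ev (4 / c₁)] with X hX hev hev2 hev3
  obtain ⟨hX1, hL1, hA1, hB1, hD1⟩ := hev
  obtain ⟨hX4, hL4, hA4, -⟩ := hev2
  obtain ⟨-, hLc, -⟩ := hev3
  obtain ⟨hfl, hfu⟩ := f_bds hL1 hA1 hB1 hD1
  have hf4 : 1 ≤ c₁ * f X := by
    rw [div_le_iff₀ hc₁0] at hLc
    nlinarith
  have hX0 : 0 < X := by linarith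
  set H : ℕ := ⌊c₁ * f X⌋₊ with hH
  have hf0 : 0 < c₁ * f X := by linarith
  have hH1 : (H : ℝ) ≤ c₁ * f X := Nat.floor_le hf0.le
  have hH2 : c₁ * f X < H + 1 := Nat.lt_floor_add_one _
  have hf00 : 0 < f X := by
    by_contra hcon
    push Not at hcon
    nlinarith
  set K : Finset ℤ := (Icc 1 H).image (fun n : ℕ => (n : ℤ)) ∪ (Icc 1 H).image (fun n : ℕ => -(n : ℤ)) with hK
  have hKm : ∀ k ∈ K, ∃ n ∈ Icc 1 H, k = n ∨ k = -(n : ℤ) := by
    intro k hk
    rcases mem_union.1 hk with hk | hk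
    · obtain ⟨n, hn, rfl⟩ := mem_image.1 hk
      exact ⟨n, hn, Or.inl rfl⟩
    · obtain ⟨n, hn, rfl⟩ := mem_image.1 hk
      exact ⟨n, hn, Or.inr rfl⟩
  have h1 := hX K (by
    intro k hk
    obtain ⟨n, hn, hkn⟩ := hKm k hk
    rw [mem_Icc] at hn
    have hn1 : (n : ℝ) ≤ H := by exact_mod_cast hn.2
    have hn2 : |(k : ℝ)| = n := by
      rcases hkn with rfl | rfl
      · rw [Int.cast_natCast, Nat.abs_cast]
      · rw [Int.cast_neg, abs_neg, Int.cast_natCast, Nat.abs_cast]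
    refine ⟨by rcases hkn with rfl | rfl <;> omega, ?_⟩
    rw [hn2]
    calc (n : ℝ) ≤ c₁ * f X := hn1.trans hH1
      _ ≤ 1 * f X := mul_le_mul_of_nonneg_right (min_le_left _ _) hf00.le
      _ ≤ _ := by rw [one_mul]; exact hfu)
    (by
      have h2 : ∑ n ∈ Icc 1 H, ((n : ℝ) / n.totient) ≤ C * H := by
        have := hmom H
        simpa using this
      have h3 : ∑ k ∈ (Icc 1 H).image (fun n : ℕ => (n : ℤ)), w k = ∑ n ∈ Icc 1 H, ((n : ℝ) / n.totient) := by
        rw [sum_image (fun a _ b _ h => by exact_mod_cast h)]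
        apply sum_congr rfl
        intro n _
        unfold w
        rw [Int.natAbs_natCast]
      have h4 : ∑ k ∈ (Icc 1 H).image (fun n : ℕ => -(n : ℤ)), w k = ∑ n ∈ Icc 1 H, ((n : ℝ) / n.totient) := by
        rw [sum_image (fun a _ b _ h => by
          have : (a : ℤ) = b := neg_injective h
          exact_mod_cast this)]
        apply sum_congr rfl
        intro n _
        unfold w
        rw [Int.natAbs_neg, Int.natAbs_natCast]
      have h5 : ∑ k ∈ K, w k ≤ ∑ k ∈ (Icc 1 H).image (fun n : ℕ => (n : ℤ)), w k +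
          ∑ k ∈ (Icc 1 H).image (fun n : ℕ => -(n : ℤ)), w k := by
        rw [← sum_union_inter]
        have h6 : 0 ≤ ∑ k ∈ ((Icc 1 H).image (fun n : ℕ => (n : ℤ)) ∩ (Icc 1 H).image (fun n : ℕ => -(n : ℤ))), w k := by
          apply sum_nonneg
          intro k _
          unfold w
          positivity
        rw [hK]
        linarith
      rw [h3, h4] at h5
      have h7 : c₁ * (2 * C) ≤ c := by
        have : c₁ ≤ c / (2 * C) := min_le_right _ _
        rwa [le_div_iff₀ (by positivity)] at this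
      calc ∑ k ∈ K, w k ≤ 2 * C * H := by linarith
        _ ≤ 2 * C * (c₁ * f X) := mul_le_mul_of_nonneg_left hH1 (by positivity)
        _ = (c₁ * (2 * C)) * f X := by ring
        _ ≤ c * f X := mul_le_mul_of_nonneg_right h7 hf00.le)
  unfold ManyPrimes at h1 ⊢
  refine h1.trans_le ?_
  have hfin : {p : ℕ | p.Prime ∧ X < p ∧ (p : ℝ) ≤ 3 * X ∧ ∀ a j : ℤ, Small J a → Small J j →
      ∀ q : ℕ, q.Prime → (p : ℤ) ∣ j * q - a → j * q ≠ a → c₁ / (4 * J) * X * f X < q}.Finite := by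
    apply (Set.finite_Iic ⌊3 * X⌋₊).subset
    intro p hp
    exact Nat.le_floor hp.2.2.1
  have hsub : {p : ℕ | p.Prime ∧ X < p ∧ (p : ℝ) ≤ 3 * X ∧ ∀ k ∈ K, ∀ a j : ℤ, Small J a → Small J j →
      ∀ q : ℕ, q.Prime → j * q ≠ k * p + a} ⊆ {p : ℕ | p.Prime ∧ X < p ∧ (p : ℝ) ≤ 3 * X ∧ ∀ a j : ℤ, Small J a →
      Small J j → ∀ q : ℕ, q.Prime → (p : ℤ) ∣ j * q - a → j * q ≠ a → c₁ / (4 * J) * X * f X < q} := by
    rintro p ⟨hp, hXp, hp3, hall⟩
    refine ⟨hp, hXp, hp3, ?_⟩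
    intro a j ha hj q hq hd hne
    obtain ⟨k, hk⟩ := hd
    have hk0 : k ≠ 0 := by
      intro h0
      rw [h0, mul_zero] at hk
      exact hne (by linarith)
    have hkK : k ∉ K := by
      intro hkK
      exact hall k hkK a j ha hj q hq (by linear_combination hk)
    have hkH : (H : ℤ) + 1 ≤ |k| := by
      by_contra hcon
      push Not at hcon
      apply hkK
      rw [hK, mem_union, mem_image, mem_image]
      have hk1 : (k.natAbs : ℤ) = |k| := Int.natCast_natAbs k
      have hk2 : 1 ≤ k.natAbs := Int.natAbs_pos.2 hk0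
      rcases le_or_gt 0 k with h0 | h0
      · left
        refine ⟨k.natAbs, mem_Icc.2 ⟨hk2, ?_⟩, ?_⟩
        · omega
        · rw [hk1, abs_of_nonneg h0]
      · right
        refine ⟨k.natAbs, mem_Icc.2 ⟨hk2, ?_⟩, ?_⟩
        · omega
        · rw [hk1, abs_of_neg h0, neg_neg]
    have hkr : c₁ * f X ≤ |(k : ℝ)| := by
      have h2 : ((H : ℝ) + 1) ≤ |(k : ℝ)| := by
        have : (((H : ℤ) + 1 : ℤ) : ℝ) ≤ ((|k| : ℤ) : ℝ) := by exact_mod_cast hkH
        rw [Int.cast_abs] at this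
        push_cast at this
        exact this
      linarith
    have haJ : |(a : ℝ)| ≤ J := by
      have : ((|a| : ℤ) : ℝ) ≤ J := by exact_mod_cast ha.2
      rwa [Int.cast_abs] at this
    have hjJ : |(j : ℝ)| ≤ J := by
      have : ((|j| : ℤ) : ℝ) ≤ J := by exact_mod_cast hj.2
      rwa [Int.cast_abs] at this
    have heq : (j : ℝ) * q = p * k + a := by
      have : (j : ℤ) * q = p * k + a := by linarith
      exact_mod_cast this
    have h3 : |(p : ℝ) * k| ≤ |(j : ℝ) * q| + |(a : ℝ)| := by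
      have : (p : ℝ) * k = j * q - a := by linarith
      rw [this]
      exact abs_sub _ _
    rw [abs_mul, abs_mul, Nat.abs_cast, Nat.abs_cast] at h3
    have hq0 : (0 : ℝ) ≤ q := Nat.cast_nonneg _
    have h4 : |(j : ℝ)| * q ≤ J * q := mul_le_mul_of_nonneg_right hjJ hq0
    have h5 : X * (c₁ * f X) ≤ (p : ℝ) * |(k : ℝ)| := mul_le_mul hXp.le hkr hf0.le (by linarith)
    have h6 : X * (c₁ * f X) ≤ J * q + J := by linarith
    have h7 : (J : ℝ) ≤ X * (c₁ * f X) / 2 := by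
      have : (4 * (J : ℝ) + 4) * 1 ≤ X * (c₁ * f X) := mul_le_mul hX4 (by linarith) zero_le_one hX0.le
      linarith
    have hJ0 : (0 : ℝ) < J := by linarith
    have h8 : X * (c₁ * f X) / 2 ≤ J * q := by linarith
    have h9 : c₁ / (4 * J) * X * f X = X * (c₁ * f X) / 2 / (2 * J) := by
      field_simp
      ring
    rw [h9, div_lt_iff₀ (by positivity)]
    have h10 : 0 < X * (c₁ * f X) := by positivity
    nlinarith
  exact_mod_cast Set.ncard_le_ncard hsub hfin

end Pool.Agent.Results.MP_e1dc24_nt.RationalClassesPrimeModuli
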