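import Pool.Agent.Q117.MG.All

/-!
# MP_e1dc24_nt: one multiplier for several residue classes at the same time
-/

set_option autoImplicit false

namespace Pool.Agent.Results.MP_e1dc24_nt.SimultaneousMultipliers

open Finset
open Pool.Agent.Q117.LF (Ro)

/-- the set of the integers `a ∈ A` -/
def ints (A : Finset ℕ) : Finset ℤ := A.image (fun a : ℕ => (a : ℤ))

/-- for every prime `p` not dividing `m` there is a translate of `E` without multiples of `p` -/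
def Admissible (m : ℕ) (E : Finset ℤ) : Prop := ∀ p : ℕ, p.Prime → ¬ p ∣ m → ∃ r : ℤ, ∀ e ∈ E, ¬ (p : ℤ) ∣ r + e

/-- the number of the residue classes modulo `p` met by `E` -/
noncomputable def omega (E : Finset ℤ) (p : ℕ) : ℕ := (E.image (fun e : ℤ => e % (p : ℤ))).card

/-- the product of `1 - omega / p` over the primes `p ≤ y` that do not divide `m` -/
noncomputable def dens (y m : ℕ) (E : Finset ℤ) : ℝ := ∏ p ∈ (Icc 1 y).filter (fun p : ℕ => p.Prime ∧ ¬ p ∣ m), (1 - (omega E p : ℝ) / p)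

open Classical in
/-- the multipliers `1 ≤ n ≤ N` with `a₀ + m n` a product of at most `R` primes, all `≥ x`, all the `a + m n`, `a ∈ A`, without prime factors `≤ z`, no `a + m (n + s)`, `a ∈ A`, `0 < |s| ≤ L`, without prime factors `≤ z`, and for `0 < |s| ≤ L'` not all of them (for the same `s`) -/
noncomputable def Multipliers (m : ℕ) (A : Finset ℕ) (a₀ R : ℕ) (x z L L' : ℝ) (N : ℕ) : Finset ℕ :=
  (Icc 1 N).filter (fun n : ℕ => (a₀ + m * n).primeFactorsList.length ≤ R ∧ (∀ p : ℕ, p.Prime → p ∣ a₀ + m * n → x ≤ p) ∧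
    (∀ a ∈ A, Ro z ((a : ℤ) + m * n)) ∧ (∀ a ∈ A, ∀ s : ℤ, s ≠ 0 → |(s : ℝ)| ≤ L → ¬ Ro z ((a : ℤ) + m * (n + s))) ∧
    ∀ s : ℤ, s ≠ 0 → |(s : ℝ)| ≤ L' → ∃ a ∈ A, ¬ Ro z ((a : ℤ) + m * (n + s)))

theorem result : ∀ (k R : ℕ) (β : ℝ), 1 ≤ R → 0 < β → 25 * (1 + β) < 3 * (8 * R - 1) * β → ∃ t : ℕ, 1 ≤ t ∧ ∃ c : ℝ, 0 < c ∧ ∃ ν : ℝ, 0 < ν ∧ ∃ m0 : ℕ, ∀ m : ℕ, m0 ≤ m →
    ∀ A : Finset ℕ, A.card ≤ k → (∀ a ∈ A, 1 ≤ a ∧ a ≤ m ∧ a.Coprime m) → Admissible m (ints A) → ∀ a₀ ∈ A,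
      c * ((m : ℝ) ^ β * dens ⌊(m : ℝ) ^ (1 + β)⌋₊ m (ints A)) ≤
        ((Multipliers m A a₀ R ((m : ℝ) ^ (β / 7)) ((m : ℝ) ^ (1 / (t : ℝ))) (ν * ((Nat.totient m : ℝ) / m * Real.log m)) (ν / dens ⌊(m : ℝ) ^ (1 + β)⌋₊ m (ints A)) ⌊(m : ℝ) ^ β⌋₊).card : ℝ) :=
  Pool.Agent.Q117.MG.smuC

end Pool.Agent.Results.MP_e1dc24_nt.SimultaneousMultipliers
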